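import Pool.Agent.J6H36.BSV.Defs

/-! Module EMB of project BSV. -/

set_option autoImplicit false

universe u w

namespace Pool.Agent.J6H42.BSV

open Cardinal Pool.Agent.J6H36.BSV

theorem t_EMB : S_EMB.{u, w} := by
  intro P _ K Ω _ _ _ _ _ hle
  obtain ⟨ι, s, hs⟩ := exists_isTranscendenceBasis' P K
  obtain ⟨ι', s', hs'⟩ := exists_isTranscendenceBasis' P Ω
  rw [← hs.cardinalMk_eq_trdeg, ← hs'.cardinalMk_eq_trdeg] at hle
  obtain ⟨e⟩ := hle
  have hind : AlgebraicIndependent P (s' ∘ e) := hs'.1.comp e e.injective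
  let f : Algebra.adjoin P (Set.range s) →ₐ[P] Ω :=
    (MvPolynomial.aeval (s' ∘ e)).comp hs.1.aevalEquiv.symm.toAlgHom
  have hf : Function.Injective f := by
    intro x y hxy
    have h1 : MvPolynomial.aeval (s' ∘ e) (hs.1.aevalEquiv.symm x) =
        MvPolynomial.aeval (s' ∘ e) (hs.1.aevalEquiv.symm y) := hxy
    exact hs.1.aevalEquiv.symm.injective (hind h1)
  let _ : Algebra (Algebra.adjoin P (Set.range s)) Ω := f.toRingHom.toAlgebra
  have _ : IsScalarTower P (Algebra.adjoin P (Set.range s)) Ω :=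
    IsScalarTower.of_algebraMap_eq fun x => (f.commutes x).symm
  have _ : FaithfulSMul (Algebra.adjoin P (Set.range s)) Ω :=
    (faithfulSMul_iff_algebraMap_injective _ _).2 hf
  have _ : Algebra.IsAlgebraic (Algebra.adjoin P (Set.range s)) K := hs.isAlgebraic
  exact ⟨(IsAlgClosed.lift (R := Algebra.adjoin P (Set.range s)) (S := K)
    (M := Ω)).restrictScalars P⟩

end Pool.Agent.J6H42.BSV
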